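import Pool.Agent.FKP.StmtsS

/-!
# FKP, row AVC: induction principle for the permutations avoiding 1324, 2143, 3142
-/

set_option autoImplicit false

open Finset Equiv

noncomputable section

namespace Pool.Agent.FKP.H25

open Pool.Agent.FKP

/-- `w` avoids the patterns 1324, 2143 and 3142 -/
def Avd {N : ℕ} (w : Perm (Fin N)) : Prop := ∀ a b c d : Fin N, a < b → b < c → c < d →
  ¬ (w a < w c ∧ w c < w b ∧ w b < w d) ∧ ¬ (w b < w a ∧ w a < w d ∧ w d < w c) ∧
  ¬ (w b < w d ∧ w d < w a ∧ w a < w c)

theorem Avd.of_emb {k N : ℕ} {w : Perm (Fin N)} {v : Perm (Fin k)} (hw : Avd w)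
    (f g : Fin k → Fin N) (hf : StrictMono f) (hg : StrictMono g)
    (h : ∀ i, w (f i) = g (v i)) : Avd v := by
  intro a b c d hab hbc hcd
  have h1 := hw (f a) (f b) (f c) (f d) (hf hab) (hf hbc) (hf hcd)
  simp only [h, hg.lt_iff_lt] at h1
  exact h1

theorem Avd.revc {N : ℕ} {w : Perm (Fin N)} (hw : Avd w) : Avd (revc w) := by
  intro a b c d hab hbc hcd
  have h1 := hw (Fin.rev d) (Fin.rev c) (Fin.rev b) (Fin.rev a) (Fin.rev_lt_rev.2 hcd)
    (Fin.rev_lt_rev.2 hbc) (Fin.rev_lt_rev.2 hab)
  simp only [Pool.Agent.FKP.revc, Perm.mul_apply, Fin.revPerm_apply, Fin.rev_lt_rev]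
  refine ⟨fun h => h1.1 ⟨h.2.2, h.2.1, h.1⟩, fun h => h1.2.1 ⟨h.2.2, h.2.1, h.1⟩, fun h => ?_⟩
  exact h1.2.2 ⟨h.2.2, h.2.1, h.1⟩

theorem revc_revc {N : ℕ} (w : Perm (Fin N)) : revc (revc w) = w := by
  ext i
  simp [revc]

theorem low_castSucc {m : ℕ} (v : Perm (Fin m)) (i : Fin m) :
    low 1 v i.castSucc = (v i).castSucc := by
  have h : i.castSucc = Fin.castAdd 1 i := rfl
  rw [h, low, Equiv.trans_apply, finSumFinEquiv_symm_apply_castAdd]
  rfl

theorem low_last {m : ℕ} (v : Perm (Fin m)) : low 1 v (Fin.last m) = Fin.last m := by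
  have h : Fin.last m = Fin.natAdd m (0 : Fin 1) := rfl
  rw [h, low, Equiv.trans_apply, finSumFinEquiv_symm_apply_natAdd]
  rfl

theorem ins_aux {m : ℕ} (w : Perm (Fin (m + 1))) (p : Fin (m + 1)) (hp : w p = Fin.last m) :
    ∃ (v : Perm (Fin m)) (u : Perm (Fin (m + 1))), w = low 1 v * u ∧
      (∀ i, w (p.succAbove i) = (v i).castSucc) ∧ u p = Fin.last m ∧
      ∀ i, u (p.succAbove i) = i.castSucc := by
  have hne : ∀ i : Fin m, w (p.succAbove i) ≠ Fin.last m := by
    intro i h
    rw [← hp] at h
    exact Fin.succAbove_ne p i (w.injective h)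
  let f : Fin m → Fin m := fun i => (w (p.succAbove i)).castPred (hne i)
  have hf : ∀ i, (f i).castSucc = w (p.succAbove i) := fun i => Fin.castSucc_castPred _ _
  have hinj : Function.Injective f := by
    intro i j h
    have h1 := congrArg Fin.castSucc h
    rw [hf, hf] at h1
    exact Fin.succAbove_right_injective (w.injective h1)
  let v : Perm (Fin m) := Equiv.ofBijective f (Finite.injective_iff_bijective.1 hinj)
  have hv : ∀ i, w (p.succAbove i) = (v i).castSucc := fun i => (hf i).symm
  refine ⟨v, (low 1 v)⁻¹ * w, by group, hv, ?_, ?_⟩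
  · rw [Perm.mul_apply, Perm.inv_eq_iff_eq, hp, low_last]
  · intro i
    rw [Perm.mul_apply, Perm.inv_eq_iff_eq, hv, low_castSucc]

theorem skew_lo {m s : ℕ} (u : Perm (Fin s)) (v : Perm (Fin m)) (i : Fin s) :
    skew u v (lo i) = Fin.natAdd m (u i) := by
  have h : posn m s (lo i) = Sum.inl i := by
    rw [posn, Equiv.trans_apply]
    exact finSumFinEquiv_symm_apply_castAdd i
  rw [skew, Equiv.trans_apply, h]
  rfl

theorem skew_hi {m s : ℕ} (u : Perm (Fin s)) (v : Perm (Fin m)) (a : Fin m) :
    skew u v (hi a) = Fin.castAdd s (v a) := by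
  have h : posn m s (hi a) = Sum.inr a := by
    rw [posn, Equiv.trans_apply]
    have h1 : finCongr (add_comm m s) (hi a) = Fin.natAdd s a := by
      apply Fin.ext
      simp [hi]
    rw [h1]
    exact finSumFinEquiv_symm_apply_natAdd a
  rw [skew, Equiv.trans_apply, h]
  rfl

theorem lo_hi {m s : ℕ} (x : Fin (m + s)) : (∃ i, lo i = x) ∨ ∃ a, hi a = x := by
  by_cases h : x.val < s
  · exact Or.inl ⟨⟨x.val, h⟩, Fin.ext rfl⟩
  · refine Or.inr ⟨⟨x.val - s, by omega⟩, Fin.ext ?_⟩
    simp only [hi, Fin.val_addNat]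
    omega

theorem skew_aux {m s : ℕ} (w : Perm (Fin (m + s))) (h1 : ∀ i : Fin s, m ≤ (w (lo i)).val) :
    ∃ (u : Perm (Fin s)) (v : Perm (Fin m)), w = skew u v ∧
      (∀ i, w (lo i) = Fin.natAdd m (u i)) ∧ ∀ a, w (hi a) = Fin.castAdd s (v a) := by
  let f : Fin s → Fin s := fun i => ⟨(w (lo i)).val - m, by
    have := (w (lo i)).isLt
    have := i.isLt
    omega⟩
  have hf : ∀ i, w (lo i) = Fin.natAdd m (f i) := by
    intro i
    apply Fin.ext
    have := h1 i
    simp only [f, Fin.val_natAdd]
    omega
  have hinj : Function.Injective f := by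
    intro i j h
    have h2 : lo i = lo (m := m) j := w.injective (by rw [hf, hf, h])
    have h3 := congrArg Fin.val h2
    exact Fin.ext h3
  let u : Perm (Fin s) := Equiv.ofBijective f (Finite.injective_iff_bijective.1 hinj)
  have hu : ∀ i, w (lo i) = Fin.natAdd m (u i) := hf
  have h2 : ∀ a : Fin m, (w (hi a)).val < m := by
    intro a
    by_contra hlt
    obtain ⟨i, hi1⟩ := u.surjective ⟨(w (hi a)).val - m, by
      have := (w (hi a)).isLt
      omega⟩
    have h3 : w (lo i) = w (hi a) := by
      rw [hu, hi1]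
      apply Fin.ext
      simp only [Fin.val_natAdd]
      omega
    have h4 := congrArg Fin.val (w.injective h3)
    simp only [lo, hi, Fin.val_addNat] at h4
    have := i.isLt
    omega
  let g : Fin m → Fin m := fun a => ⟨(w (hi a)).val, h2 a⟩
  have hg : ∀ a, w (hi a) = Fin.castAdd s (g a) := fun a => Fin.ext rfl
  have ginj : Function.Injective g := by
    intro i j h
    have h2 : hi i = hi (s := s) j := w.injective (by rw [hg, hg, h])
    have h3 := congrArg Fin.val h2
    simp only [hi, Fin.val_addNat] at h3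
    exact Fin.ext (by omega)
  let v : Perm (Fin m) := Equiv.ofBijective g (Finite.injective_iff_bijective.1 ginj)
  have hv : ∀ a, w (hi a) = Fin.castAdd s (v a) := hg
  refine ⟨u, v, ?_, hu, hv⟩
  apply Equiv.ext
  intro x
  rcases lo_hi x with ⟨i, rfl⟩ | ⟨a, rfl⟩
  · rw [hu, skew_lo]
  · rw [hv, skew_hi]

/-- the entries before the largest one increase -/
def Cond1 {N : ℕ} (w : Perm (Fin N)) : Prop :=
  ∀ a b p : Fin N, (w p).val + 1 = N → a < b → b < p → w a < w b

/-- the largest value is not at the last position -/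
def NotLast {N : ℕ} (w : Perm (Fin N)) : Prop := ∀ p : Fin N, (w p).val + 1 = N → p.val + 1 ≠ N

section ind

variable (C : ∀ N, Perm (Fin N) → Prop)

theorem case_ins
    (hins : ∀ (m : ℕ) (v : Perm (Fin m)) (u : Perm (Fin (m + 1))) (p : Fin (m + 1)),
      u p = Fin.last m → (∀ i, u (p.succAbove i) = i.castSucc) →
      (∀ a b : Fin m, a < b → b.val < p.val → v a < v b) → C m v → C (m + 1) (low 1 v * u))
    {N : ℕ} (hN : 0 < N) (ih : ∀ k < N, ∀ v : Perm (Fin k), Avd v → C k v) (w : Perm (Fin N))
    (hw : Avd w) (hc : Cond1 w) : C N w := by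
  obtain ⟨m, rfl⟩ : ∃ m, N = m + 1 := ⟨N - 1, by omega⟩
  obtain ⟨p, hp⟩ := w.surjective (Fin.last m)
  obtain ⟨v, u, hwu, hv, hu1, hu2⟩ := ins_aux w p hp
  rw [hwu]
  apply hins m v u p hu1 hu2
  · intro a b hab hb
    have hlt : ∀ c : Fin m, c.val < p.val → p.succAbove c < p := by
      intro c hc
      exact Fin.succAbove_lt_iff_castSucc_lt p c |>.2 hc
    have h1 := hc (p.succAbove a) (p.succAbove b) p (by rw [hp]; rfl)
      ((Fin.strictMono_succAbove p) hab) (hlt b hb)
    rw [hv, hv] at h1
    exact Fin.castSucc_lt_castSucc_iff.1 h1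
  · exact ih m (by omega) v (hw.of_emb p.succAbove Fin.castSucc (Fin.strictMono_succAbove p)
      Fin.strictMono_castSucc hv)

theorem case_skew
    (hskew : ∀ (m s : ℕ) (u : Perm (Fin s)) (v : Perm (Fin m)), 0 < m → 0 < s → C s u → C m v →
      C (m + s) (skew u v))
    {N : ℕ} (ih : ∀ k < N, ∀ v : Perm (Fin k), Avd v → C k v) (w : Perm (Fin N))
    (hw : Avd w) (hc : ¬ Cond1 w) (hl : NotLast w) : C N w := by
  rw [Cond1] at hc
  push Not at hc
  obtain ⟨b, a, p, hp, hba, hap, hwba⟩ := hc
  have hlt : w a < w b := lt_of_le_of_ne hwba (fun h => hba.ne' (w.injective h))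
  have hp2 := hl p hp
  have hN : 0 < N := by have := p.isLt; omega
  -- the entries after the maximum are small
  have htop : ∀ x, x ≠ p → w x < w p := by
    intro x hx
    have h1 : (w x).val ≠ (w p).val := fun h => hx (w.injective (Fin.ext h))
    have h2 := (w x).isLt
    rw [Fin.lt_def]
    omega
  have hsmall : ∀ x, p < x → w x < w a := by
    intro x hx
    have h1 := hw b a p x hba hap hx
    have h2 := htop x hx.ne'
    by_contra h3
    have hxa : x ≠ a := by rintro rfl; exact absurd hap (not_lt.2 hx.le)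
    have hxb : x ≠ b := by rintro rfl; exact absurd (hba.trans hap) (not_lt.2 hx.le)
    have h4 : w a < w x := lt_of_le_of_ne (not_lt.1 h3) (fun h => hxa (w.injective h).symm)
    rcases lt_or_ge (w x) (w b) with h5 | h5
    · exact h1.2.2 ⟨h4, h5, htop b (hba.trans hap).ne⟩
    · exact h1.2.1 ⟨hlt, lt_of_le_of_ne h5 (fun h => hxb (w.injective h).symm), h2⟩
  have hsep : ∀ y x, y ≤ p → p < x → w x < w y := by
    intro y x hy hx
    rcases eq_or_lt_of_le hy with rfl | hy
    · exact htop x hx.ne'
    by_contra h3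
    have hxy : x ≠ y := by rintro rfl; exact absurd hy (not_lt.2 hx.le)
    have h4 : w y < w x := lt_of_le_of_ne (not_lt.1 h3) (fun h => hxy (w.injective h).symm)
    have h5 := hsmall x hx
    have h6 : w y < w a := h4.trans h5
    rcases lt_trichotomy y b with h7 | rfl | h7
    · -- y b a p : 1 3 2 4
      exact (hw y b a p h7 hba hap).1 ⟨h6, hlt, htop b (hba.trans hap).ne⟩
    · exact absurd h6 (not_lt.2 hlt.le)
    · -- b y p x with w y < w x < w b
      exact (hw b y p x h7 hy hx).2.2 ⟨h4, h5.trans hlt, htop b (hba.trans hap).ne⟩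
  -- the splitting
  obtain ⟨s, hs⟩ : ∃ s, s = p.val + 1 := ⟨_, rfl⟩
  obtain ⟨m, hm⟩ : ∃ m, N = m + s := ⟨N - s, by have := p.isLt; omega⟩
  subst hm
  have hm0 : 0 < m := by
    have := p.isLt
    omega
  have h1 : ∀ i : Fin s, m ≤ (w (lo i)).val := by
    intro i
    by_contra h
    -- the values of the last m positions are all smaller than w (lo i) < m
    have h2 : ∀ a : Fin m, (w (hi a)).val < (w (lo i)).val := by
      intro a
      apply hsep
      · rw [Fin.le_def]
        have := i.isLt
        simp only [lo]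
        omega
      · rw [Fin.lt_def]
        simp only [hi, Fin.val_addNat]
        omega
    have h3 : Function.Injective (fun a : Fin m => (⟨(w (hi a)).val, h2 a⟩ :
        Fin (w (lo i)).val)) := by
      intro a a' h
      have h4 := congrArg Fin.val h
      have h5 := w.injective (Fin.ext h4)
      have h6 := congrArg Fin.val h5
      simp only [hi, Fin.val_addNat] at h6
      exact Fin.ext (by omega)
    have h4 := Fintype.card_le_of_injective _ h3
    rw [Fintype.card_fin, Fintype.card_fin] at h4
    omega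
  obtain ⟨u, v, huv, hu, hv⟩ := skew_aux w h1
  rw [huv]
  apply hskew m s u v hm0 (by omega)
  · apply ih s (by omega) u
    refine hw.of_emb lo (Fin.natAdd m) ?_ (Fin.strictMono_natAdd m) hu
    intro i j hij
    exact hij
  · apply ih m (by omega) v
    refine hw.of_emb hi (Fin.castAdd s) ?_ (Fin.strictMono_castAdd s) hv
    intro i j hij
    rw [Fin.lt_def] at hij ⊢
    simp only [hi, Fin.val_addNat]
    omega

/-- Induction principle for the permutations avoiding 1324, 2143, 3142: they are obtained from the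
empty permutation by skew sums, insertion of a new largest value after an increasing initial
part, and conjugation with the longest element. -/
theorem av_induction (h0 : C 0 1)
    (hskew : ∀ (m s : ℕ) (u : Perm (Fin s)) (v : Perm (Fin m)), 0 < m → 0 < s → C s u → C m v →
      C (m + s) (skew u v))
    (hins : ∀ (m : ℕ) (v : Perm (Fin m)) (u : Perm (Fin (m + 1))) (p : Fin (m + 1)),
      u p = Fin.last m → (∀ i, u (p.succAbove i) = i.castSucc) →
      (∀ a b : Fin m, a < b → b.val < p.val → v a < v b) → C m v → C (m + 1) (low 1 v * u))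
    (hrev : ∀ (N : ℕ) (w : Perm (Fin N)), C N w → C N (revc w)) (N : ℕ) :
    ∀ w : Perm (Fin N), Avd w → C N w := by
  induction N using Nat.strong_induction_on with
  | _ N ih =>
    intro w hw
    rcases Nat.eq_zero_or_pos N with rfl | hN
    · rw [Subsingleton.elim w 1]
      exact h0
    by_cases hc : Cond1 w
    · exact case_ins C hins hN ih w hw hc
    by_cases hl : NotLast w
    · exact case_skew C hskew ih w hw hc hl
    -- the largest value is fixed
    have key : NotLast (revc w) := by
      rw [NotLast] at hl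
      push Not at hl
      obtain ⟨p, hp, hp2⟩ := hl
      rw [Cond1] at hc
      push Not at hc
      obtain ⟨b, a, p', hp', hba, hap, hwba⟩ := hc
      have hpp : p' = p := w.injective (Fin.ext (by omega))
      subst hpp
      have hlt : w a < w b := lt_of_le_of_ne hwba (fun h => hba.ne' (w.injective h))
      intro q hq hq2
      -- `rev q = 0`, `w (rev q) = 0`
      have h1 : (w (Fin.rev q)).val = 0 := by
        have h2 : revc w q = Fin.rev (w (Fin.rev q)) := rfl
        rw [h2, Fin.val_rev] at hq
        omega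
      have h2 : (Fin.rev q).val = 0 := by
        rw [Fin.val_rev]
        omega
      have h3 : Fin.rev q < b := by
        rw [Fin.lt_def, h2]
        by_contra h4
        have h5 : b = Fin.rev q := Fin.ext (by omega)
        rw [h5, Fin.lt_def, h1] at hlt
        omega
      have h4 : w (Fin.rev q) < w a := by
        rw [Fin.lt_def, h1]
        by_contra h5
        have h6 : w a = w (Fin.rev q) := Fin.ext (by omega)
        have h7 := w.injective h6
        rw [h7] at hba
        exact absurd h3 (not_lt.2 hba.le)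
      have h5 : w b < w p' := by
        have h6 : (w b).val ≠ (w p').val :=
          fun h => (hba.trans hap).ne (w.injective (Fin.ext h))
        have h7 := (w b).isLt
        rw [Fin.lt_def]
        omega
      exact (hw _ b a p' h3 hba hap).1 ⟨h4, hlt, h5⟩
    have hw' : Avd (revc w) := hw.revc
    rw [← revc_revc w]
    apply hrev
    by_cases hc' : Cond1 (revc w)
    · exact case_ins C hins hN ih _ hw' hc'
    · exact case_skew C hskew ih _ hw' hc' key

end ind

end Pool.Agent.FKP.H25
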