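import Pool.Agent.FKP.Pos
import Pool.Agent.Helper25_FKP.AvInd

/-!
# FKP, row PAT: permutations avoiding 1324, 2143, 3142 are built
-/

set_option autoImplicit false

open Finset Equiv

noncomputable section

namespace Pool.Agent.FKP.H25

open Pool.Agent.FKP

theorem flip_ek {N : ℕ} (p : Fin N) :
    MvPolynomial.eval₂ MvPolynomial.C (fun i => -MvPolynomial.X (Fin.rev i))
      (ek N (N - 1 - p.val) (N - 1 - p.val)) =
    ∏ l ∈ univ.filter (fun l : Fin N => p < l), (-MvPolynomial.X l) := by
  have hcard : (univ.filter fun i : Fin N => i.val < N - 1 - p.val).card = N - 1 - p.val := by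
    rw [Fin.card_filter_val_lt]
    exact min_eq_right (by omega)
  have key : ∀ (S : Finset (Fin N)) (k : ℕ), S.card = k →
      ∑ s ∈ powersetCard k S, ∏ i ∈ s, (MvPolynomial.X i : MvPolynomial (Fin N) ℤ) =
        ∏ i ∈ S, MvPolynomial.X i := by
    rintro S _ rfl
    rw [powersetCard_self, sum_singleton]
  rw [ek, key _ _ hcard, MvPolynomial.eval₂_prod]
  apply Finset.prod_nbij' Fin.rev Fin.rev
  · intro i hi
    have h := (mem_filter.1 hi).2
    have h2 := p.isLt
    rw [mem_filter, Fin.lt_def, Fin.val_rev]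
    exact ⟨mem_univ _, by omega⟩
  · intro i hi
    have h := (mem_filter.1 hi).2
    rw [Fin.lt_def] at h
    have h2 := i.isLt
    rw [mem_filter, Fin.val_rev]
    exact ⟨mem_univ _, by omega⟩
  · intro i _
    exact Fin.rev_rev i
  · intro i _
    exact Fin.rev_rev i
  · intro i _
    rw [MvPolynomial.eval₂_X]

theorem pat (cyc : CycStmt) (dua : DuaStmt) : PatStmt := by
  intro N w hw
  apply av_induction Built _ _ _ _ N w hw
  · intro S hS
    have h1 : S 1 = ek 0 0 0 := by
      have h2 : (Fin.revPerm : Perm (Fin 0)) = 1 := Subsingleton.elim _ _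
      have h3 := hS.1
      rw [h2] at h3
      rw [h3, ek, Finset.powersetCard_zero, Finset.sum_singleton, Finset.prod_empty]
      rfl
    rw [h1]
    exact Pos.elem 0 0 le_rfl
  · intro m s u v _ _ hu hv S hS
    exact Pos.skew S u v hS hu hv
  · intro m v u p hp hu hv hb S hS
    have hcase : ∀ a : Fin (m + 1), a = p ∨ ∃ i, a = p.succAbove i := by
      intro a
      rcases eq_or_ne a p with h | h
      · exact Or.inl h
      · obtain ⟨i, hi⟩ := Fin.exists_succAbove_eq h
        exact Or.inr ⟨i, hi.symm⟩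
    have hmono : ∀ a b : Fin (m + 1), a < b → a ≠ p → b ≠ p → u a < u b := by
      intro a b hab ha hb'
      obtain ⟨i, rfl⟩ := (hcase a).resolve_left ha
      obtain ⟨j, rfl⟩ := (hcase b).resolve_left hb'
      rw [hu, hu]
      exact Fin.castSucc_lt_castSucc_iff.2 ((Fin.strictMono_succAbove p).lt_iff_lt.1 hab)
    have hne : ∀ a : Fin (m + 1), (u a).val < m → a ≠ p := by
      rintro a ha rfl
      rw [hp, Fin.val_last] at ha
      exact lt_irrefl _ ha
    apply Pos.glue S p.val v u hS hv
    · intro a b hab h1 h2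
      exact hmono a b hab (hne a h2) (hne b h1)
    · intro a ha
      have hap : a ≠ p := by
        rintro rfl
        omega
      obtain ⟨i, rfl⟩ := (hcase a).resolve_left hap
      rw [hu]
      exact i.isLt
    · intro S1 hS1
      have h1 := (cyc (m + 1) S1 hS1).2 p u (by rw [hp, Fin.val_last]; rfl) hmono
      apply Pos.cong (Pos.flip (Pos.elem (m + 1 - 1 - p.val) (m + 1 - 1 - p.val) (by omega)))
      rw [flip_ek, ← neg_sub]
      exact (Ideal.neg_mem_iff _).2 h1
    · exact hb
  · intro N w hb S hS
    apply Pos.cong (Pos.flip (hb S hS))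
    rw [← neg_sub]
    exact (Ideal.neg_mem_iff _).2 (dua N S hS w)

end Pool.Agent.FKP.H25
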