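import Pool.Agent.FKP.FinDefs
import Pool.Agent.Helper25_FKP.Pat

/-!
# FKP, row AVC: permutations avoiding 1324, 2143, 3142 are in the class without base
-/

set_option autoImplicit false

open Finset Equiv

noncomputable section

namespace Pool.Agent.FKP.H25

open Pool.Agent.FKP

theorem avc (cyc : CycStmt) : AvcStmt := by
  intro N w hw
  apply av_induction (Cls noB) _ _ _ _ N w hw
  · exact Cls.one 0
  · intro m s u v _ _ hu hv
    exact Cls.skew hu hv
  · intro m v u p hp hu hv hb
    have hcase : ∀ a : Fin (m + 1), a = p ∨ ∃ i, a = p.succAbove i := by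
      intro a
      rcases eq_or_ne a p with h | h
      · exact Or.inl h
      · obtain ⟨i, hi⟩ := Fin.exists_succAbove_eq h
        exact Or.inr ⟨i, hi.symm⟩
    have hmono : ∀ a b : Fin (m + 1), a < b → a ≠ p → b ≠ p → u a < u b := by
      intro a b hab ha hb'
      obtain ⟨i, rfl⟩ := (hcase a).resolve_left ha
      obtain ⟨j, rfl⟩ := (hcase b).resolve_left hb'
      rw [hu, hu]
      exact Fin.castSucc_lt_castSucc_iff.2 ((Fin.strictMono_succAbove p).lt_iff_lt.1 hab)
    have hne : ∀ a : Fin (m + 1), (u a).val < m → a ≠ p := by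
      rintro a ha rfl
      rw [hp, Fin.val_last] at ha
      exact lt_irrefl _ ha
    apply Cls.glue p.val hv
    · intro a b hab h1 h2
      exact hmono a b hab (hne a h2) (hne b h1)
    · intro a ha
      have hap : a ≠ p := by
        rintro rfl
        omega
      obtain ⟨i, rfl⟩ := (hcase a).resolve_left hap
      rw [hu]
      exact i.isLt
    · apply Cls.mul (revp (ek (m + 1) (m + 1 - 1 - p.val) (m + 1 - 1 - p.val)))
        (Cls.one (m + 1)) (Bas.d (Bas.e (m + 1) _ _ (by omega)))
      intro S hS
      obtain ⟨h1, h2⟩ := cyc (m + 1) S hS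
      have h3 := h2 p u (by rw [hp, Fin.val_last]; rfl) hmono
      rw [← flip_ek] at h3
      have h4 := (Isy (m + 1)).sub_mem h3 ((Isy (m + 1)).mul_mem_right
        (revp (ek (m + 1) (m + 1 - 1 - p.val) (m + 1 - 1 - p.val))) h1)
      refine (congrArg (· ∈ Isy (m + 1)) ?_).mp h4
      rw [revp]
      ring
    · exact hb
  · intro N w hb
    exact Cls.revc hb

theorem avc_full : AvcStmt := avc All.cyc

end Pool.Agent.FKP.H25
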